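import Pool.Agent.TH623.LC.Main

/-!
# A leafwise complex cycle which is not a superposition of pseudoholomorphic curves

The manifold is `M = ℂ² × R`, foliated by the leaves `ℂ² × {r}`, with `J` the multiplication by
`i`. The `C`-cycle is `dd^c max (Re x₁, Re x₂, 0)` on the leaf `r = 0`: the sum of three currents,
each an average of half planes in parallel complex lines, carried by the three real
hypersurfaces with boundary

* `Re x₁ = 0, Re x₂ ≤ 0`,
* `Re x₂ = 0, Re x₁ ≤ 0`,
* `Re x₁ = Re x₂ ≥ 0`.

If it were a superposition of curves in a neighbourhood of the origin, then almost all of these
curves would be contained in the union of the three hypersurfaces; but a curve contained in one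
of them is contained in a complex line, and by properness it contains the whole part of this line
in a ball, which leaves the union of the three hypersurfaces.
-/

set_option autoImplicit false

open Pool.Agent.TH623.LC TopologicalSpace

namespace Pool.Agent.Results.MP_03adb9_gt.NotSuperposition

/-- For every finite-dimensional real vector space `R`, the manifold `ℂ² × R` with the foliation
by the leaves `ℂ² × {r}` and the standard leafwise complex structure carries a `C`-cycle `c`
which is on no open neighbourhood of the origin a non-negative superposition of
pseudoholomorphic curves. -/
theorem result (R : Type) [NormedAddCommGroup R] [NormedSpace ℝ R] [FiniteDimensional ℝ R] :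
    ∃ c : Current R (⊤ : Opens (Mfd R)) 2, IsCCurrent c ∧ IsCycle c ∧
      ∀ U : Opens (Mfd R), (0 : Mfd R) ∈ U → ¬ IsSuperposition c U :=
  main R

end Pool.Agent.Results.MP_03adb9_gt.NotSuperposition
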